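import Mathlib

set_option autoImplicit false

/-!
A checker for refutations of systems of clauses, implications and linear equations over
0-1-variables. Literals are numbers `m ≥ 64`; `m ^^^ 1` is the negation of `m`. The state is a
number: for `m ≥ 64` bit `m` is set if the literal `m` is known to be true (the lower bits only
serve to distinguish the states).
-/

namespace Pool.Agent.H23.KD

/-- evaluates the number `n` before it is used -/
def force {β : Type} (n : ℕ) (k : ℕ → β) : β :=
  Nat.rec (motive := fun _ => β) (k 0) (fun m _ => k m) (Nat.succ n)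

theorem force_eq {β : Type} (n : ℕ) (k : ℕ → β) : force n k = k n := rfl

/-- a table -/
inductive Tr : Type
  | leaf (n : ℕ) : Tr
  | node (l r : Tr) : Tr

/-- the entry with index `i` (lowest bit first) -/
noncomputable def Tr.get (t : Tr) : ℕ → ℕ :=
  Tr.rec (motive := fun _ => ℕ → ℕ) (fun n _ => n)
    (fun _ _ l r i => Bool.rec (l (Nat.shiftRight i 1)) (r (Nat.shiftRight i 1))
      (Nat.beq 1 (Nat.land i 1))) t

/-- a leaf contains 8 entries; it starts with 8 offsets of 20 bits -/
noncomputable def get8 (t : Tr) (i : ℕ) : ℕ :=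
  force (t.get (Nat.shiftRight i 3)) fun n =>
    Nat.shiftRight n (Nat.land (Nat.shiftRight n (Nat.mul 20 (Nat.land i 7))) 1048575)

/-- one literal of a mask -/
def bit1 (n : ℕ) : ℕ := Nat.shiftLeft 1 (Nat.land n 131071)

/-- the mask of the first `4 k` fields (17 bits) of `n` -/
def dense (k : ℕ) : ℕ → ℕ → ℕ :=
  Nat.rec (motive := fun _ => ℕ → ℕ → ℕ) (fun _ m => m)
    (fun _ ih n m => ih (Nat.shiftRight n 68)
      (Nat.lor (Nat.lor m (Nat.lor (bit1 n) (bit1 (Nat.shiftRight n 17))))
        (Nat.lor (bit1 (Nat.shiftRight n 34)) (bit1 (Nat.shiftRight n 51))))) k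

/-- the mask of an entry: number of groups of 4 fields (12 bits), fields -/
noncomputable def mask (t : Tr) (i : ℕ) : ℕ :=
  force (get8 t i) fun c => dense (Nat.land c 4095) (Nat.shiftRight c 12) 0

/-- one term of a plane: literal (17 bits), coefficient (8 bits) -/
def bit2 (d j n : ℕ) : ℕ :=
  Nat.shiftLeft (Nat.land 1 (Nat.shiftRight n j)) (Nat.xor d (Nat.land n 131071))

/-- the mask of the literals (negated if `d = 1`) whose coefficients have bit `j - 17`; `4 k`
terms -/
def plane (d j : ℕ) (k : ℕ) : ℕ → ℕ → ℕ :=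
  Nat.rec (motive := fun _ => ℕ → ℕ → ℕ) (fun _ m => m)
    (fun _ ih n m => ih (Nat.shiftRight n 100)
      (Nat.lor (Nat.lor m (Nat.lor (bit2 d j n) (bit2 d j (Nat.shiftRight n 25))))
        (Nat.lor (bit2 d j (Nat.shiftRight n 50)) (bit2 d j (Nat.shiftRight n 75))))) k

/-- an entry for an equation: groups of 4 terms (12 bits), the number of planes (4 bits), value
(20 bits), value for the negated literals (20 bits), terms -/
noncomputable def planeOf (t : Tr) (d i j : ℕ) : ℕ :=
  force (get8 t i) fun c =>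
    plane d (Nat.add 17 j) (Nat.land c 4095) (Nat.shiftRight c 56) 0

noncomputable def planes (t : Tr) (i : ℕ) : ℕ :=
  Nat.land (Nat.shiftRight (get8 t i) 12) 7

noncomputable def value (t : Tr) (d i : ℕ) : ℕ :=
  Nat.land (Nat.shiftRight (get8 t i) (Nat.add 16 (Nat.mul 20 d))) 1048575

/-- adds neighbouring groups of `b` bits -/
def st (b m x : ℕ) : ℕ := Nat.add (Nat.land x m) (Nat.land (Nat.shiftRight x b) m)

/-- mask of groups of `b` bits in every `2 b` bits -/
def mk (b N : ℕ) : ℕ :=
  Nat.mul (Nat.sub (Nat.pow 2 b) 1)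
    (Nat.div (Nat.sub (Nat.pow (Nat.pow 2 (Nat.mul 2 b)) N) 1)
      (Nat.sub (Nat.pow 2 (Nat.mul 2 b)) 1))

/-- a lower bound (in fact the value) for the number of bits of `z` -/
def pc (N z : ℕ) : ℕ :=
  Nat.mod (st 8 (mk 8 N) (st 4 (mk 4 (Nat.mul 2 N)) (st 2 (mk 2 (Nat.mul 4 N))
    (st 1 (mk 1 (Nat.mul 8 N)) z)))) 65535

/-- the sum over the first `k` planes -/
noncomputable def psum (ET : Tr) (N d x A : ℕ) (k : ℕ) : ℕ :=
  Nat.rec (motive := fun _ => ℕ) 0
    (fun j s => Nat.add s (Nat.shiftLeft (pc N (Nat.land A (planeOf ET d x j))) j)) k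

/-- some literal and its negation are both set; `E` is the mask of the even bits from 64 -/
def confl (E A : ℕ) : Bool :=
  Nat.ble 1 (Nat.land (Nat.land A E) (Nat.shiftRight A 1))

/-- the new state -/
def nx (A D r : ℕ) : ℕ := Nat.xor (Nat.lor A D) (Nat.land r 18446744073709551615)

/-- the consequences of the first field of entry `x` -/
noncomputable def impl (IT : Tr) (A x : ℕ) : ℕ :=
  Nat.mul (Nat.land 1 (Nat.shiftRight A (Nat.land (Nat.shiftRight (get8 IT x) 12)
    131071))) (mask IT x)

/-- `y` follows from clause `x < i` -/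
noncomputable def clau (CT : Tr) (i A x y : ℕ) : ℕ :=
  Nat.shiftLeft (Nat.mul (Nat.sub 1 (Nat.xor (Nat.land
    (Nat.lor A (Nat.shiftLeft 1 (Nat.xor 1 y))) (mask CT x)) (mask CT x)))
    (Nat.sub 1 (Nat.sub (Nat.succ x) i))) y

/-- `y` follows from equation `x` -/
noncomputable def equa (ET : Tr) (N d A x y : ℕ) : ℕ :=
  Nat.shiftLeft (Nat.sub 1 (Nat.sub (Nat.succ (value ET d x))
    (psum ET N d x (Nat.lor A (Nat.shiftLeft 1 (Nat.xor 1 y))) (planes ET x)))) y

/-! ### Meaning -/

/-- field `j` of `n` -/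
def fld (n j : ℕ) : ℕ := (n >>> (17 * j)) &&& 131071

/-- a clause holds: an entry lists the negations of its literals -/
def CSat (w : ℕ → Bool) (c : ℕ) : Prop :=
  ∃ j < 4 * (c &&& 4095), w (fld (c >>> 12) j) = false

/-- an implication holds: the first field implies all the fields -/
def ISat (w : ℕ → Bool) (c : ℕ) : Prop :=
  w (fld (c >>> 12) 0) = true → ∀ j < 4 * (c &&& 4095), w (fld (c >>> 12) j) = true

/-- literal of term `j` -/
def tl (n j : ℕ) : ℕ := (n >>> (25 * j)) &&& 131071

/-- coefficient of term `j` -/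
def tc (n j : ℕ) : ℕ := (n >>> (25 * j + 17)) &&& 255

/-- an equation holds -/
def ESat (w : ℕ → Bool) (c : ℕ) : Prop :=
  (∑ j ∈ Finset.range (4 * (c &&& 4095)), tc (c >>> 56) j * (w (tl (c >>> 56) j)).toNat =
    (c >>> 16) &&& 1048575) ∧
  (∑ j ∈ Finset.range (4 * (c &&& 4095)), tc (c >>> 56) j * (w (tl (c >>> 56) j ^^^ 1)).toNat =
    (c >>> 36) &&& 1048575)

/-- one hint -/
noncomputable def hint (CT ET IT : Tr) (N i : ℕ) (A r kd x y : ℕ) (k : ℕ → Bool) : Bool :=
  Nat.rec (motive := fun _ => Bool)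
    (force (nx A (impl IT A x) r) fun B =>
      Nat.rec (motive := fun _ => Bool) (k B)
        (fun y' _ => force (nx B (impl IT B (Nat.succ y')) (Nat.shiftRight r 1)) k) y)
    (fun kd1 _ => Nat.rec (motive := fun _ => Bool) (force (nx A (clau CT i A x y) r) k)
      (fun d _ => force (nx A (equa ET N d A x y) r) k) kd1) kd

/-- runs the first `c` hints of `h`: kind (2 bits), `x` (19 bits), `y` (17 bits) -/
noncomputable def hints (CT ET IT : Tr) (E N i : ℕ) (c : ℕ) : ℕ → ℕ → Bool :=
  Nat.rec (motive := fun _ => ℕ → ℕ → Bool) (fun _ A => confl E A)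
    (fun _ ih h A => force (Nat.land (Nat.shiftRight h 2) 524287) fun x =>
      hint CT ET IT N i A h (Nat.land h 3) x (Nat.land (Nat.shiftRight h 21) 131071)
        (ih (Nat.shiftRight h 38))) c

/-- one step: clause `i` follows -/
noncomputable def step (CT ET IT : Tr) (E N i A h : ℕ) : Bool :=
  force (nx A (mask CT i) h) fun B =>
  hints CT ET IT E N i (Nat.land h 65535) (Nat.shiftRight h 16) B

/-- a list of numbers -/
inductive SL : Type
  | nil : SL
  | cons (n : ℕ) (t : SL) : SL

/-- the number of elements -/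
def SL.len : SL → ℕ
  | .nil => 0
  | .cons _ t => t.len + 1

/-- a block of steps; the lowest bit of an element is 1 if the clause has just one literal -/
noncomputable def runB (CT ET IT : Tr) (E N : ℕ) (s : SL) : ℕ → ℕ → ℕ → Bool :=
  SL.rec (motive := fun _ => ℕ → ℕ → ℕ → Bool)
    (fun _ A Z => Nat.beq (Nat.shiftRight A 64) Z)
    (fun h _ ih i A Z => Bool.rec false
      (Bool.rec (ih (Nat.succ i) A Z)
        (force (Nat.land (Nat.shiftRight (get8 CT i) 12) 131071) fun f =>
          Bool.rec false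
            (force (Nat.lor A (Nat.shiftLeft 1 (Nat.xor 1 f))) fun B => ih (Nat.succ i) B Z)
            (Nat.beq (mask CT i) (Nat.shiftLeft 1 f)))
        (Nat.beq 1 (Nat.land h 1)))
      (step CT ET IT E N i A (Nat.shiftRight h 1))) s

end Pool.Agent.H23.KD
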