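import Mathlib
import Pool.Agent.H23.KD.Chk

set_option autoImplicit false

/-!
The number of bits.
-/

namespace Pool.Agent.H23.KD

open Finset

/-- the sum of the first `N` digits in base `2 ^ b` -/
def ds (b : ℕ) : ℕ → ℕ → ℕ
  | 0, _ => 0
  | N + 1, x => x % 2 ^ b + ds b N (x / 2 ^ b)

theorem ds_succ (b N x : ℕ) : ds b (N + 1) x = x % 2 ^ b + ds b N (x / 2 ^ b) := rfl

/-- the number of set bits below `N` -/
def pop (N z : ℕ) : ℕ := ((range N).filter (fun i => z.testBit i = true)).card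

theorem ds_one (N z : ℕ) : ds 1 N z = pop N z := by
  induction N generalizing z with
  | zero => rfl
  | succ N ih =>
    rw [ds_succ, ih]
    unfold pop
    rw [range_eq_Ico, range_eq_Ico, Finset.card_filter, Finset.card_filter,
      Finset.sum_eq_sum_Ico_succ_bot (Nat.succ_pos N)]
    congr 1
    · rw [pow_one, Nat.testBit_zero]
      rcases Nat.mod_two_eq_zero_or_one z with h | h <;> simp [h]
    · rw [zero_add, Finset.sum_Ico_eq_sum_range, Finset.sum_Ico_eq_sum_range]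
      refine Finset.sum_congr rfl fun i _ => ?_
      rw [pow_one, Nat.testBit_div_two, zero_add, add_comm 1 i]

theorem geo (b N : ℕ) (hb : 1 ≤ b) :
    mk b N = (2 ^ b - 1) * ∑ i ∈ range N, (2 ^ (2 * b)) ^ i := by
  have h : 2 ≤ 2 ^ (2 * b) := by
    calc 2 = 2 ^ 1 := rfl
      _ ≤ 2 ^ (2 * b) := Nat.pow_le_pow_right (by norm_num) (by omega)
  rw [Nat.geomSum_eq h]
  rfl

theorem mk_succ (b N : ℕ) (hb : 1 ≤ b) :
    mk b (N + 1) = (2 ^ b - 1) + 2 ^ (2 * b) * mk b N := by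
  rw [geo b _ hb, geo b _ hb, Finset.sum_range_succ', mul_add, pow_zero, mul_one, add_comm]
  congr 1
  rw [Finset.mul_sum, Finset.mul_sum, Finset.mul_sum]
  refine Finset.sum_congr rfl fun i _ => ?_
  ring

theorem mk_zero (b : ℕ) (hb : 1 ≤ b) : mk b 0 = 0 := by
  rw [geo b _ hb]
  simp

theorem mk_lt (b : ℕ) (hb : 1 ≤ b) : (2 ^ b - 1) < 2 ^ (2 * b) := by
  have h : 2 ^ b ≤ 2 ^ (2 * b) := Nat.pow_le_pow_right (by norm_num) (by omega)
  have h2 : 0 < 2 ^ b := Nat.two_pow_pos b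
  omega

theorem land_mk (b N x : ℕ) (hb : 1 ≤ b) :
    Nat.land x (mk b (N + 1)) = x % 2 ^ b + 2 ^ (2 * b) * Nat.land (x / 2 ^ (2 * b)) (mk b N) := by
  have hlt := mk_lt b hb
  have h1 : mk b (N + 1) % 2 ^ (2 * b) = 2 ^ b - 1 := by
    rw [mk_succ b N hb, Nat.add_mul_mod_self_left, Nat.mod_eq_of_lt hlt]
  have h2 : mk b (N + 1) / 2 ^ (2 * b) = mk b N := by
    rw [mk_succ b N hb, Nat.add_mul_div_left _ _ (by positivity), Nat.div_eq_of_lt hlt, zero_add]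
  have h3 : (x &&& mk b (N + 1)) % 2 ^ (2 * b) = x % 2 ^ b := by
    rw [Nat.and_mod_two_pow, h1, Nat.and_two_pow_sub_one_eq_mod,
      Nat.mod_mod_of_dvd _ (pow_dvd_pow 2 (by omega))]
  have h4 : (x &&& mk b (N + 1)) / 2 ^ (2 * b) = (x / 2 ^ (2 * b)) &&& mk b N := by
    rw [Nat.and_div_two_pow, h2]
  have h5 := Nat.mod_add_div (x &&& mk b (N + 1)) (2 ^ (2 * b))
  rw [h3, h4] at h5
  exact h5.symm

theorem st_succ (b N x : ℕ) (hb : 1 ≤ b) :
    st b (mk b (N + 1)) x = (x % 2 ^ b + x / 2 ^ b % 2 ^ b) +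
      2 ^ (2 * b) * st b (mk b N) (x / 2 ^ (2 * b)) := by
  unfold st
  have e : ∀ y : ℕ, Nat.shiftRight y b = y / 2 ^ b := fun y => Nat.shiftRight_eq_div_pow y b
  rw [e, e, land_mk b N x hb, land_mk b N _ hb]
  have h : x / 2 ^ b / 2 ^ (2 * b) = x / 2 ^ (2 * b) / 2 ^ b := by
    rw [Nat.div_div_eq_div_mul, Nat.div_div_eq_div_mul, mul_comm]
  rw [h]
  have e2 : ∀ y z : ℕ, Nat.add y z = y + z := fun _ _ => rfl
  rw [e2, e2]
  ring

theorem st_zero (b x : ℕ) (hb : 1 ≤ b) : st b (mk b 0) x = 0 := by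
  unfold st
  rw [mk_zero b hb]
  show (x &&& 0) + (_ &&& 0) = 0
  rw [Nat.and_zero, Nat.and_zero]

theorem digit_lt (b x : ℕ) (hb : 1 ≤ b) : x % 2 ^ b + x / 2 ^ b % 2 ^ b < 2 ^ (2 * b) := by
  have h1 : x % 2 ^ b < 2 ^ b := Nat.mod_lt _ (by positivity)
  have h2 : x / 2 ^ b % 2 ^ b < 2 ^ b := Nat.mod_lt _ (by positivity)
  have h3 : 2 ^ (2 * b) = 2 ^ b * 2 ^ b := by rw [two_mul, pow_add]
  have h4 : 2 ^ 1 ≤ 2 ^ b := Nat.pow_le_pow_right (by norm_num) hb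
  rw [h3]
  nlinarith

theorem ds_st (b N x : ℕ) (hb : 1 ≤ b) : ds (2 * b) N (st b (mk b N) x) = ds b (2 * N) x := by
  induction N generalizing x with
  | zero => rfl
  | succ N ih =>
    have h0 := digit_lt b x hb
    have e : 2 * (N + 1) = 2 * N + 1 + 1 := by ring
    rw [e, ds_succ, ds_succ, ds_succ, st_succ b N x hb, Nat.add_mul_mod_self_left,
      Nat.mod_eq_of_lt h0, Nat.add_mul_div_left _ _ (by positivity), Nat.div_eq_of_lt h0,
      zero_add, ih, Nat.div_div_eq_div_mul, ← pow_add, ← two_mul, add_assoc]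

theorem st_lt (b N x : ℕ) (hb : 1 ≤ b) : st b (mk b N) x < (2 ^ (2 * b)) ^ N := by
  induction N generalizing x with
  | zero => rw [st_zero b x hb]; norm_num
  | succ N ih =>
    have h0 := digit_lt b x hb
    rw [st_succ b N x hb, pow_succ]
    have h1 := ih (x / 2 ^ (2 * b))
    calc _ < 2 ^ (2 * b) + 2 ^ (2 * b) * st b (mk b N) (x / 2 ^ (2 * b)) := by omega
      _ = 2 ^ (2 * b) * (st b (mk b N) (x / 2 ^ (2 * b)) + 1) := by ring
      _ ≤ 2 ^ (2 * b) * (2 ^ (2 * b)) ^ N := Nat.mul_le_mul_left _ h1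
      _ = _ := by ring

theorem modEq_ds (b N x : ℕ) (hx : x < (2 ^ b) ^ N) : x ≡ ds b N x [MOD 2 ^ b - 1] := by
  induction N generalizing x with
  | zero =>
    have : x = 0 := by simpa using hx
    subst this
    rfl
  | succ N ih =>
    unfold ds
    have h1 : x / 2 ^ b < (2 ^ b) ^ N := by
      rw [Nat.div_lt_iff_lt_mul (by positivity), ← pow_succ]
      exact hx
    have h2 := ih _ h1
    have h3 : (2 ^ b : ℕ) ≡ 1 [MOD 2 ^ b - 1] :=
      ((Nat.modEq_iff_dvd' Nat.one_le_two_pow).2 dvd_rfl).symm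
    calc x = x % 2 ^ b + 2 ^ b * (x / 2 ^ b) := (Nat.mod_add_div x (2 ^ b)).symm
      _ ≡ x % 2 ^ b + 1 * (ds b N (x / 2 ^ b)) [MOD 2 ^ b - 1] :=
        Nat.ModEq.add_left _ (h3.mul h2)
      _ = _ := by rw [one_mul]

theorem pc_le (N z : ℕ) : pc N z ≤ pop (16 * N) z := by
  unfold pc
  set w1 := st 1 (mk 1 (Nat.mul 8 N)) z
  set w2 := st 2 (mk 2 (Nat.mul 4 N)) w1
  set w3 := st 4 (mk 4 (Nat.mul 2 N)) w2
  set w4 := st 8 (mk 8 N) w3
  have h4 : w4 < (2 ^ 16) ^ N := st_lt 8 N w3 (by norm_num)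
  have h5 : w4 ≡ ds 16 N w4 [MOD 2 ^ 16 - 1] := modEq_ds 16 N w4 h4
  have h6 : Nat.mod w4 65535 = ds 16 N w4 % 65535 := h5
  rw [h6]
  refine (Nat.mod_le _ _).trans (le_of_eq ?_)
  have e4 : ds 16 N w4 = ds 8 (2 * N) w3 := ds_st 8 N w3 (by norm_num)
  have e3 : ds 8 (2 * N) w3 = ds 4 (2 * (2 * N)) w2 := ds_st 4 (2 * N) w2 (by norm_num)
  have e2 : ds 4 (4 * N) w2 = ds 2 (2 * (4 * N)) w1 := ds_st 2 (4 * N) w1 (by norm_num)
  have e1 : ds 2 (8 * N) w1 = ds 1 (2 * (8 * N)) z := ds_st 1 (8 * N) z (by norm_num)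
  rw [e4, e3]
  have a1 : 2 * (2 * N) = 4 * N := by ring
  rw [a1, e2]
  have a2 : 2 * (4 * N) = 8 * N := by ring
  rw [a2, e1, ds_one]
  congr 1
  ring

theorem mk_one_even (n m : ℕ) (h : (mk 1 n).testBit m = true) : m % 2 = 0 := by
  induction n generalizing m with
  | zero =>
    rw [mk_zero 1 (by norm_num), Nat.zero_testBit] at h
    exact absurd h (by simp)
  | succ n ih =>
    rw [mk_succ 1 n (by norm_num)] at h
    have e : (2 ^ 1 - 1 + 2 ^ (2 * 1) * mk 1 n : ℕ) = 4 * mk 1 n + 1 := by norm_num; ring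
    rw [e] at h
    rcases m with _ | _ | m
    · rfl
    · exfalso
      rw [Nat.testBit_succ] at h
      have : (4 * mk 1 n + 1) / 2 = 2 * mk 1 n := by omega
      rw [this, Nat.testBit_zero] at h
      simp at h
    · rw [Nat.testBit_succ, Nat.testBit_succ] at h
      have : (4 * mk 1 n + 1) / 2 / 2 = mk 1 n := by omega
      rw [this] at h
      have := ih m h
      omega

end Pool.Agent.H23.KD
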