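import Mathlib
import Pool.Agent.H23.KD.Pop

set_option autoImplicit false

/-!
The checker is sound.
-/

namespace Pool.Agent.H23.KD

open Finset

variable {w : ℕ → Bool}

/-- all the set bits are true literals -/
def Inv (w : ℕ → Bool) (A : ℕ) : Prop := ∀ m, A.testBit m = true → w m = true

theorem Inv.zero : Inv w 0 := fun m h => by
  rw [Nat.zero_testBit] at h
  exact absurd h (by simp)

theorem Inv.lor {A B : ℕ} (hA : Inv w A) (hB : Inv w B) : Inv w (Nat.lor A B) := by
  intro m h
  have h1 : (A ||| B).testBit m = true := h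
  rw [Nat.testBit_or, Bool.or_eq_true] at h1
  exact h1.elim (hA m) (hB m)

theorem testBit_one_shiftLeft (y m : ℕ) :
    (Nat.shiftLeft 1 y).testBit m = true ↔ m = y := by
  have h : Nat.shiftLeft 1 y = 2 ^ y := by
    have := Nat.one_shiftLeft y
    exact this
  rw [h, Nat.testBit_two_pow]
  simp [eq_comm]

theorem Inv.one {y : ℕ} (h : w y = true) : Inv w (Nat.shiftLeft 1 y) := by
  intro m hm
  rw [(testBit_one_shiftLeft y m).1 hm]
  exact h

theorem Inv.nx (h0 : ∀ m < 64, w m = true) {A D : ℕ} (r : ℕ) (hA : Inv w A) (hD : Inv w D) :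
    Inv w (nx A D r) := by
  intro m h
  rcases lt_or_ge m 64 with hm | hm
  · exact h0 m hm
  · have h1 : ((A ||| D) ^^^ (r &&& 18446744073709551615)).testBit m = true := h
    have h2 : (18446744073709551615 : ℕ).testBit m = false := by
      apply Nat.testBit_lt_two_pow
      calc (18446744073709551615 : ℕ) < 2 ^ 64 := by norm_num
        _ ≤ 2 ^ m := Nat.pow_le_pow_right (by norm_num) hm
    rw [Nat.testBit_xor, Nat.testBit_and, h2, Bool.and_false, Bool.xor_false] at h1
    rw [Nat.testBit_or, Bool.or_eq_true] at h1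
    exact h1.elim (hA m) (hD m)

theorem bit1_testBit (n m : ℕ) : (bit1 n).testBit m = true ↔ m = n &&& 131071 :=
  testBit_one_shiftLeft _ _

theorem fld_add (n i j : ℕ) : fld (Nat.shiftRight n (17 * i)) j = fld n (i + j) := by
  unfold fld
  have : Nat.shiftRight n (17 * i) >>> (17 * j) = n >>> (17 * (i + j)) := by
    have h : Nat.shiftRight n (17 * i) = n >>> (17 * i) := rfl
    rw [h, ← Nat.shiftRight_add, ← mul_add]
  rw [this]

theorem dense_testBit (k n m i : ℕ) :
    (dense k n m).testBit i = true ↔ m.testBit i = true ∨ ∃ j < 4 * k, fld n j = i := by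
  induction k generalizing n m with
  | zero => 
    show m.testBit i = true ↔ _
    simp
  | succ k ih =>
    have e : dense (k + 1) n m = dense k (Nat.shiftRight n 68)
      (Nat.lor (Nat.lor m (Nat.lor (bit1 n) (bit1 (Nat.shiftRight n 17))))
        (Nat.lor (bit1 (Nat.shiftRight n 34)) (bit1 (Nat.shiftRight n 51)))) := rfl
    rw [e, ih]
    have hl : ∀ a b : ℕ, (Nat.lor a b).testBit i = true ↔
        (a.testBit i = true ∨ b.testBit i = true) := by
      intro a b
      have : (a ||| b).testBit i = true ↔ (a.testBit i = true ∨ b.testBit i = true) := by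
        rw [Nat.testBit_or, Bool.or_eq_true]
      exact this
    rw [hl, hl, hl, hl, bit1_testBit, bit1_testBit, bit1_testBit, bit1_testBit]
    have f0 : n &&& 131071 = fld n 0 := rfl
    have f1 : Nat.shiftRight n 17 &&& 131071 = fld n 1 := rfl
    have f2 : Nat.shiftRight n 34 &&& 131071 = fld n 2 := rfl
    have f3 : Nat.shiftRight n 51 &&& 131071 = fld n 3 := rfl
    rw [f0, f1, f2, f3]
    have f4 : ∀ j, fld (Nat.shiftRight n 68) j = fld n (4 + j) := fun j => fld_add n 4 j
    constructor
    · rintro ((((h | h | h) | h | h)) | ⟨j, hj, h⟩)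
      · exact Or.inl h
      · exact Or.inr ⟨0, by omega, h.symm⟩
      · exact Or.inr ⟨1, by omega, h.symm⟩
      · exact Or.inr ⟨2, by omega, h.symm⟩
      · exact Or.inr ⟨3, by omega, h.symm⟩
      · exact Or.inr ⟨4 + j, by omega, by rw [← f4]; exact h⟩
    · rintro (h | ⟨j, hj, h⟩)
      · exact Or.inl (Or.inl (Or.inl h))
      · rcases j with _ | _ | _ | _ | j
        · exact Or.inl (Or.inl (Or.inr (Or.inl h.symm)))
        · exact Or.inl (Or.inl (Or.inr (Or.inr h.symm)))
        · exact Or.inl (Or.inr (Or.inl h.symm))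
        · exact Or.inl (Or.inr (Or.inr h.symm))
        · refine Or.inr ⟨j, by omega, ?_⟩
          rw [f4, ← h]
          congr 1
          omega

theorem mask_testBit (t : Tr) (x i : ℕ) :
    (mask t x).testBit i = true ↔ ∃ j < 4 * (get8 t x &&& 4095), fld (get8 t x >>> 12) j = i := by
  have e : mask t x = dense (get8 t x &&& 4095) (get8 t x >>> 12) 0 := rfl
  rw [e, dense_testBit, Nat.zero_testBit]
  simp

theorem Inv.mask_of_not {t : Tr} {x : ℕ} (h : ¬ CSat w (get8 t x)) : Inv w (mask t x) := by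
  intro m hm
  obtain ⟨j, hj, rfl⟩ := (mask_testBit t x m).1 hm
  by_contra hw
  exact h ⟨j, hj, by simpa using hw⟩

theorem Inv.impl {IT : Tr} {A : ℕ} (x : ℕ) (hI : ∀ x, ISat w (get8 IT x)) (hA : Inv w A) :
    Inv w (impl IT A x) := by
  unfold KD.impl
  have e : ∀ a b : ℕ, Nat.mul a b = a * b := fun _ _ => rfl
  have e2 : Nat.land 1 (Nat.shiftRight A (Nat.land (Nat.shiftRight (get8 IT x) 12) 131071)) =
      (A >>> (fld (get8 IT x >>> 12) 0)) % 2 := by
    have : Nat.land 1 (Nat.shiftRight A (Nat.land (Nat.shiftRight (get8 IT x) 12) 131071)) =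
      1 &&& (A >>> (fld (get8 IT x >>> 12) 0)) := rfl
    rw [this, Nat.and_comm, Nat.and_one_is_mod]
  rw [e, e2]
  rcases Nat.mod_two_eq_zero_or_one (A >>> (fld (get8 IT x >>> 12) 0)) with h | h
  · rw [h, zero_mul]
    exact Inv.zero
  · rw [h, one_mul]
    have h1 : A.testBit (fld (get8 IT x >>> 12) 0) = true := by
      rw [Nat.testBit_eq_decide_div_mod_eq, ← Nat.shiftRight_eq_div_pow, h]
      rfl
    intro m hm
    obtain ⟨j, hj, rfl⟩ := (mask_testBit IT x m).1 hm
    exact hI x (hA _ h1) j hj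

theorem xor_one_comm (y : ℕ) : Nat.xor 1 y = y ^^^ 1 := by
  have : (1 ^^^ y : ℕ) = y ^^^ 1 := Nat.xor_comm 1 y
  exact this

/-- the state in which a literal is assumed to be false -/
theorem Inv.assume (h1 : ∀ m, 64 ≤ m → w (m ^^^ 1) = !w m) (h0 : ∀ m < 64, w m = true)
    {A y : ℕ} (hA : Inv w A) (hy : w y = false) :
    Inv w (Nat.lor A (Nat.shiftLeft 1 (Nat.xor 1 y))) := by
  apply hA.lor
  apply Inv.one
  rw [xor_one_comm, h1 y ?_, hy]
  · rfl
  · by_contra h
    rw [h0 y (by omega)] at hy
    exact absurd hy (by simp)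

theorem shiftLeft_inv {c y : ℕ} (h : c = 0 ∨ (c = 1 ∧ w y = true)) :
    Inv w (Nat.shiftLeft c y) := by
  rcases h with rfl | ⟨rfl, h⟩
  · have : Nat.shiftLeft 0 y = 0 := by
      have := Nat.zero_shiftLeft y
      exact this
    rw [this]
    exact Inv.zero
  · exact Inv.one h

theorem Inv.clau (h1 : ∀ m, 64 ≤ m → w (m ^^^ 1) = !w m) (h0 : ∀ m < 64, w m = true)
    {CT : Tr} {i A : ℕ} (x y : ℕ) (hC : ∀ x < i, CSat w (get8 CT x)) (hA : Inv w A) :
    Inv w (clau CT i A x y) := by
  unfold KD.clau
  apply shiftLeft_inv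
  set B := Nat.lor A (Nat.shiftLeft 1 (Nat.xor 1 y)) with hB
  set M := mask CT x with hM
  have e : ∀ a b : ℕ, Nat.mul a b = a * b := fun _ _ => rfl
  have e2 : ∀ a b : ℕ, Nat.sub a b = a - b := fun _ _ => rfl
  rw [e, e2, e2, e2]
  rcases Nat.eq_zero_or_pos (Nat.xor (Nat.land B M) M) with hx | hx
  · rw [hx]
    rcases Nat.eq_zero_or_pos (Nat.succ x - i) with hi | hi
    · rw [hi]
      right
      refine ⟨rfl, ?_⟩
      by_contra hw
      have hw' : w y = false := by simpa using hw
      have hBI := hA.assume h1 h0 hw'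
      have hsub : (B &&& M) = M := by
        have h3 : (B &&& M) ^^^ M = 0 := hx
        exact Nat.xor_eq_zero_iff.1 h3
      obtain ⟨j, hj, hjw⟩ := hC x (by omega)
      have hbit : M.testBit (fld (get8 CT x >>> 12) j) = true :=
        (mask_testBit CT x _).2 ⟨j, hj, rfl⟩
      have hbit2 : B.testBit (fld (get8 CT x >>> 12) j) = true := by
        rw [← hsub, Nat.testBit_and, Bool.and_eq_true] at hbit
        exact hbit.1
      rw [hBI _ hbit2] at hjw
      exact absurd hjw (by simp)
    · left
      have : 1 - (Nat.succ x - i) = 0 := by omega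
      rw [this, mul_zero]
  · left
    have : 1 - Nat.xor (Nat.land B M) M = 0 := by omega
    rw [this, zero_mul]

/-! ### Equations -/

theorem tl_add (n i j : ℕ) : tl (Nat.shiftRight n (25 * i)) j = tl n (i + j) := by
  unfold tl
  have : Nat.shiftRight n (25 * i) >>> (25 * j) = n >>> (25 * (i + j)) := by
    have h : Nat.shiftRight n (25 * i) = n >>> (25 * i) := rfl
    rw [h, ← Nat.shiftRight_add, ← mul_add]
  rw [this]

theorem bit2_testBit (d j n m : ℕ) :
    (bit2 d j n).testBit m = true → (n.testBit j = true ∧ m = d ^^^ (n &&& 131071)) := by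
  intro h
  unfold bit2 at h
  have e2 : Nat.land 1 (Nat.shiftRight n j) = (n >>> j) % 2 := by
    have : Nat.land 1 (Nat.shiftRight n j) = 1 &&& (n >>> j) := rfl
    rw [this, Nat.and_comm, Nat.and_one_is_mod]
  rw [e2] at h
  rcases Nat.mod_two_eq_zero_or_one (n >>> j) with h2 | h2
  · rw [h2] at h
    have : Nat.shiftLeft 0 (Nat.xor d (Nat.land n 131071)) = 0 := by
      have := Nat.zero_shiftLeft (Nat.xor d (Nat.land n 131071))
      exact this
    rw [this, Nat.zero_testBit] at h
    exact absurd h (by simp)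
  · rw [h2] at h
    refine ⟨?_, (testBit_one_shiftLeft _ _).1 h⟩
    rw [Nat.testBit_eq_decide_div_mod_eq, ← Nat.shiftRight_eq_div_pow, h2]
    rfl

theorem plane_testBit (d j k n m i : ℕ) (h : (plane d j k n m).testBit i = true) :
    m.testBit i = true ∨ ∃ t < 4 * k, n.testBit (25 * t + j) = true ∧ i = d ^^^ tl n t := by
  induction k generalizing n m with
  | zero => exact Or.inl h
  | succ k ih =>
    have e : plane d j (k + 1) n m = plane d j k (Nat.shiftRight n 100)
      (Nat.lor (Nat.lor m (Nat.lor (bit2 d j n) (bit2 d j (Nat.shiftRight n 25))))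
        (Nat.lor (bit2 d j (Nat.shiftRight n 50)) (bit2 d j (Nat.shiftRight n 75)))) := rfl
    rw [e] at h
    have hl : ∀ a b : ℕ, (Nat.lor a b).testBit i = true ↔
        (a.testBit i = true ∨ b.testBit i = true) := by
      intro a b
      have : (a ||| b).testBit i = true ↔ (a.testBit i = true ∨ b.testBit i = true) := by
        rw [Nat.testBit_or, Bool.or_eq_true]
      exact this
    have hs : ∀ s : ℕ, (Nat.shiftRight n s).testBit j = n.testBit (s + j) := by
      intro s
      have : (n >>> s).testBit j = n.testBit (s + j) := Nat.testBit_shiftRight _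
      exact this
    rcases ih _ _ h with h | ⟨t, ht, h, h'⟩
    · rw [hl, hl, hl, hl] at h
      rcases h with (h | h | h) | h | h
      · exact Or.inl h
      · obtain ⟨a, b⟩ := bit2_testBit d j _ _ h
        refine Or.inr ⟨0, by omega, ?_, b⟩
        rw [mul_zero, zero_add]
        exact a
      · obtain ⟨a, b⟩ := bit2_testBit d j _ _ h
        refine Or.inr ⟨1, by omega, ?_, b⟩
        rw [← hs]
        exact a
      · obtain ⟨a, b⟩ := bit2_testBit d j _ _ h
        refine Or.inr ⟨2, by omega, ?_, b⟩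
        rw [← hs]
        exact a
      · obtain ⟨a, b⟩ := bit2_testBit d j _ _ h
        refine Or.inr ⟨3, by omega, ?_, b⟩
        rw [← hs]
        exact a
    · refine Or.inr ⟨4 + t, by omega, ?_, ?_⟩
      · have h2 : (Nat.shiftRight n 100).testBit (25 * t + j) =
            n.testBit (100 + (25 * t + j)) := by
          have : (n >>> 100).testBit (25 * t + j) = n.testBit (100 + (25 * t + j)) :=
            Nat.testBit_shiftRight _
          exact this
        rw [h2] at h
        rw [← h]
        congr 1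
        ring
      · rw [h']
        congr 1
        exact tl_add n 4 t

theorem tc_testBit (n t j : ℕ) (hj : j < 8) :
    (tc n t).testBit j = n.testBit (25 * t + (17 + j)) := by
  unfold tc
  rw [Nat.testBit_and, Nat.testBit_shiftRight]
  have : (255 : ℕ).testBit j = true := by
    interval_cases j <;> rfl
  rw [this, Bool.and_true]
  congr 1
  ring

/-- the terms of an equation that are counted in a plane -/
theorem pop_plane_le (ET : Tr) (M d x A j : ℕ) (hj : j < 8) :
    pop M (Nat.land A (planeOf ET d x j)) ≤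
      ∑ t ∈ range (4 * (get8 ET x &&& 4095)),
        ((tc (get8 ET x >>> 56) t).testBit j).toNat *
          (A.testBit (d ^^^ tl (get8 ET x >>> 56) t)).toNat := by
  classical
  set n := get8 ET x >>> 56 with hn
  set T := 4 * (get8 ET x &&& 4095) with hT
  have e : planeOf ET d x j = plane d (17 + j) (get8 ET x &&& 4095) n 0 := rfl
  have hkey : ∀ i, (Nat.land A (planeOf ET d x j)).testBit i = true →
      ∃ t < T, (tc n t).testBit j = true ∧ A.testBit (d ^^^ tl n t) = true ∧
        i = d ^^^ tl n t := by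
    intro i hi
    have h1 : (A &&& planeOf ET d x j).testBit i = true := hi
    rw [Nat.testBit_and, Bool.and_eq_true, e] at h1
    rcases plane_testBit _ _ _ _ _ _ h1.2 with h2 | ⟨t, ht, h2, h3⟩
    · rw [Nat.zero_testBit] at h2
      exact absurd h2 (by simp)
    · exact ⟨t, ht, by rw [tc_testBit n t j hj]; exact h2, by rw [← h3]; exact h1.1, h3⟩
  have hsum : ∑ t ∈ range T, ((tc n t).testBit j).toNat * (A.testBit (d ^^^ tl n t)).toNat =
      ((range T).filter (fun t => (tc n t).testBit j = true ∧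
        A.testBit (d ^^^ tl n t) = true)).card := by
    rw [Finset.card_filter]
    refine Finset.sum_congr rfl fun t _ => ?_
    rcases Bool.eq_false_or_eq_true ((tc n t).testBit j) with h | h <;>
      rcases Bool.eq_false_or_eq_true (A.testBit (d ^^^ tl n t)) with h' | h' <;>
      simp [h, h']
  rw [hsum]
  unfold pop
  choose! f hf using hkey
  refine Finset.card_le_card_of_injOn f ?_ ?_
  · intro i hi
    have hi' := (Finset.mem_filter.1 hi).2
    have := hf i hi'
    simp only [Finset.coe_filter, Finset.mem_range, Set.mem_ofPred_eq]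
    exact ⟨this.1, this.2.1, this.2.2.1⟩
  · intro i hi i' hi' hii
    have h1 := hf i (Finset.mem_filter.1 hi).2
    have h2 := hf i' (Finset.mem_filter.1 hi').2
    rw [h1.2.2.2, h2.2.2.2, hii]

theorem sum_bits_le (a k : ℕ) : ∑ j ∈ range k, 2 ^ j * (a.testBit j).toNat ≤ a := by
  induction k generalizing a with
  | zero => simp
  | succ k ih =>
    rw [Finset.sum_range_succ']
    have h1 : ∑ j ∈ range k, 2 ^ (j + 1) * (a.testBit (j + 1)).toNat =
        2 * ∑ j ∈ range k, 2 ^ j * ((a / 2).testBit j).toNat := by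
      rw [Finset.mul_sum]
      refine Finset.sum_congr rfl fun j _ => ?_
      rw [Nat.testBit_succ, pow_succ]
      ring
    have h2 := ih (a / 2)
    have h3 : (a.testBit 0).toNat = a % 2 := by
      rw [Nat.testBit_zero]
      rcases Nat.mod_two_eq_zero_or_one a with h | h <;> simp [h]
    rw [h1, pow_zero, one_mul, h3]
    omega

theorem psum_eq (ET : Tr) (N d x A k : ℕ) :
    psum ET N d x A k = ∑ j ∈ range k, pc N (Nat.land A (planeOf ET d x j)) * 2 ^ j := by
  induction k with
  | zero => rfl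
  | succ k ih =>
    rw [Finset.sum_range_succ, ← ih]
    have : psum ET N d x A (k + 1) = psum ET N d x A k +
        (pc N (Nat.land A (planeOf ET d x k))) <<< k := rfl
    rw [this, Nat.shiftLeft_eq]

theorem psum_le (ET : Tr) (N d x A k : ℕ) (hk : k ≤ 7) :
    psum ET N d x A k ≤ ∑ t ∈ range (4 * (get8 ET x &&& 4095)),
      tc (get8 ET x >>> 56) t * (A.testBit (d ^^^ tl (get8 ET x >>> 56) t)).toNat := by
  rw [psum_eq]
  calc ∑ j ∈ range k, pc N (Nat.land A (planeOf ET d x j)) * 2 ^ j
      ≤ ∑ j ∈ range k, (∑ t ∈ range (4 * (get8 ET x &&& 4095)),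
        ((tc (get8 ET x >>> 56) t).testBit j).toNat *
          (A.testBit (d ^^^ tl (get8 ET x >>> 56) t)).toNat) * 2 ^ j := by
        refine Finset.sum_le_sum fun j hj => Nat.mul_le_mul_right _ ?_
        exact (pc_le N _).trans (pop_plane_le ET _ d x A j (by
          have := Finset.mem_range.1 hj
          omega))
    _ = ∑ t ∈ range (4 * (get8 ET x &&& 4095)),
        (∑ j ∈ range k, 2 ^ j * ((tc (get8 ET x >>> 56) t).testBit j).toNat) *
          (A.testBit (d ^^^ tl (get8 ET x >>> 56) t)).toNat := by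
        simp only [Finset.sum_mul]
        rw [Finset.sum_comm]
        refine Finset.sum_congr rfl fun t _ => Finset.sum_congr rfl fun j _ => ?_
        ring
    _ ≤ _ := Finset.sum_le_sum fun t _ => Nat.mul_le_mul_right _ (sum_bits_le _ _)

theorem psum_inv_le {ET : Tr} {A : ℕ} (N d x k : ℕ) (hk : k ≤ 7) (hA : Inv w A) :
    psum ET N d x A k ≤ ∑ t ∈ range (4 * (get8 ET x &&& 4095)),
      tc (get8 ET x >>> 56) t * (w (d ^^^ tl (get8 ET x >>> 56) t)).toNat := by
  refine (psum_le ET N d x A k hk).trans (Finset.sum_le_sum fun t _ =>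
    Nat.mul_le_mul_left _ ?_)
  rcases Bool.eq_false_or_eq_true (A.testBit (d ^^^ tl (get8 ET x >>> 56) t)) with h | h
  · rw [h, hA _ h]
  · rw [h]
    exact Nat.zero_le _

theorem Inv.equa (h1 : ∀ m, 64 ≤ m → w (m ^^^ 1) = !w m) (h0 : ∀ m < 64, w m = true)
    {ET : Tr} {A : ℕ} (N d x y : ℕ) (hd : d ≤ 1) (hE : ∀ x, ESat w (get8 ET x))
    (hA : Inv w A) : Inv w (equa ET N d A x y) := by
  unfold KD.equa
  apply shiftLeft_inv
  set B := Nat.lor A (Nat.shiftLeft 1 (Nat.xor 1 y)) with hB
  have e2 : ∀ a b : ℕ, Nat.sub a b = a - b := fun _ _ => rfl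
  rw [e2, e2]
  rcases Nat.eq_zero_or_pos (Nat.succ (value ET d x) - psum ET N d x B (planes ET x)) with hx | hx
  · right
    rw [hx]
    refine ⟨rfl, ?_⟩
    by_contra hw
    have hw' : w y = false := by simpa using hw
    have hBI := hA.assume h1 h0 hw'
    have hk : planes ET x ≤ 7 := by
      have : planes ET x = (get8 ET x >>> 12) &&& 7 := rfl
      rw [this]
      exact Nat.and_le_right
    have h3 : psum ET N d x B (planes ET x) ≤ _ :=
      psum_inv_le (ET := ET) N d x (planes ET x) hk hBI
    have hE' := hE x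
    have hv : ∑ t ∈ range (4 * (get8 ET x &&& 4095)),
        tc (get8 ET x >>> 56) t * (w (d ^^^ tl (get8 ET x >>> 56) t)).toNat = value ET d x := by
      rcases Nat.le_one_iff_eq_zero_or_eq_one.1 hd with rfl | rfl
      · have h4 := hE'.1
        have h5 : value ET 0 x = (get8 ET x >>> 16) &&& 1048575 := rfl
        rw [h5, ← h4]
        refine Finset.sum_congr rfl fun t _ => ?_
        rw [Nat.zero_xor]
      · have h4 := hE'.2
        have h5 : value ET 1 x = (get8 ET x >>> 36) &&& 1048575 := rfl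
        rw [h5, ← h4]
        refine Finset.sum_congr rfl fun t _ => ?_
        rw [Nat.xor_comm]
    rw [hv] at h3
    omega
  · left
    omega

/-! ### Hints and steps -/

theorem hint_sound (h1 : ∀ m, 64 ≤ m → w (m ^^^ 1) = !w m) (h0 : ∀ m < 64, w m = true)
    {CT ET IT : Tr} {N i A : ℕ} (hC : ∀ x < i, CSat w (get8 CT x))
    (hE : ∀ x, ESat w (get8 ET x)) (hI : ∀ x, ISat w (get8 IT x)) (r kd x y : ℕ) (hkd : kd < 4)
    (k : ℕ → Bool) (hk : ∀ B, Inv w B → k B = true → False) (hA : Inv w A)
    (h : hint CT ET IT N i A r kd x y k = true) : False := by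
  rcases kd with _ | kd1
  · have h2 : (Nat.rec (motive := fun _ => Bool) (k (nx A (impl IT A x) r))
        (fun y' _ => k (nx (nx A (impl IT A x) r) (impl IT (nx A (impl IT A x) r) (Nat.succ y'))
          (Nat.shiftRight r 1))) y : Bool) = true := h
    have hB : Inv w (nx A (impl IT A x) r) := hA.nx h0 r (hA.impl x hI)
    rcases y with _ | y'
    · exact hk _ hB h2
    · exact hk _ (hB.nx h0 _ (hB.impl _ hI)) h2
  · rcases kd1 with _ | d
    · exact hk _ (hA.nx h0 r (hA.clau h1 h0 x y hC)) h
    · exact hk _ (hA.nx h0 r (hA.equa h1 h0 N d x y (by omega) hE)) h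

theorem confl_sound (h1 : ∀ m, 64 ≤ m → w (m ^^^ 1) = !w m) {E A : ℕ}
    (hEM : ∀ m, E.testBit m = true → 64 ≤ m ∧ m % 2 = 0) (hA : Inv w A)
    (h : confl E A = true) : False := by
  unfold confl at h
  have h2 : 1 ≤ (A &&& E) &&& (A >>> 1) := Nat.le_of_ble_eq_true h
  obtain ⟨m, hm⟩ := Nat.exists_testBit_of_ne_zero (x := (A &&& E) &&& (A >>> 1)) (by omega)
  rw [Nat.testBit_and, Nat.testBit_and, Bool.and_eq_true, Bool.and_eq_true,
    Nat.testBit_shiftRight] at hm
  obtain ⟨⟨ha, he⟩, hb⟩ := hm
  obtain ⟨h3, h4⟩ := hEM m he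
  have h5 : 1 + m = m ^^^ 1 := by
    have h6 : m = 2 * (m / 2) := by omega
    have h7 : (2 * (m / 2)) ^^^ 1 = 2 * (m / 2) + 1 := by
      apply Nat.eq_of_testBit_eq
      intro j
      rw [Nat.testBit_xor]
      rcases j with _ | j
      · simp [Nat.testBit_zero]
      · rw [Nat.testBit_succ, Nat.testBit_succ, Nat.testBit_succ]
        have e1 : 2 * (m / 2) / 2 = m / 2 := by omega
        have e2 : (2 * (m / 2) + 1) / 2 = m / 2 := by omega
        have e3 : 1 / 2 = 0 := rfl
        rw [e1, e2, e3, Nat.zero_testBit, Bool.xor_false]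
    rw [h6, h7]
    omega
  have h8 := hA _ hb
  rw [h5, h1 m h3, hA _ ha] at h8
  exact absurd h8 (by simp)

theorem hints_sound (h1 : ∀ m, 64 ≤ m → w (m ^^^ 1) = !w m) (h0 : ∀ m < 64, w m = true)
    {CT ET IT : Tr} {E N i : ℕ} (hEM : ∀ m, E.testBit m = true → 64 ≤ m ∧ m % 2 = 0)
    (hC : ∀ x < i, CSat w (get8 CT x))
    (hE : ∀ x, ESat w (get8 ET x)) (hI : ∀ x, ISat w (get8 IT x)) (c : ℕ) :
    ∀ (h A : ℕ), Inv w A → hints CT ET IT E N i c h A = true → False := by
  induction c with
  | zero => exact fun h A hA hh => confl_sound h1 hEM hA hh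
  | succ c ih =>
    intro h A hA hh
    refine hint_sound h1 h0 hC hE hI h (Nat.land h 3) _ _ ?_
      (hints CT ET IT E N i c (Nat.shiftRight h 38)) (fun B hB hk => ih _ B hB hk) hA hh
    have : h &&& 3 ≤ 3 := Nat.and_le_right
    exact Nat.lt_succ_of_le this

theorem step_sound (h1 : ∀ m, 64 ≤ m → w (m ^^^ 1) = !w m) (h0 : ∀ m < 64, w m = true)
    {CT ET IT : Tr} {E N i : ℕ} (hEM : ∀ m, E.testBit m = true → 64 ≤ m ∧ m % 2 = 0)
    (hC : ∀ x < i, CSat w (get8 CT x))
    (hE : ∀ x, ESat w (get8 ET x)) (hI : ∀ x, ISat w (get8 IT x)) {A : ℕ} (h : ℕ)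
    (hA : Inv w A) (hh : step CT ET IT E N i A h = true) : CSat w (get8 CT i) := by
  by_contra hn
  exact hints_sound h1 h0 hEM hC hE hI _ _ _ (hA.nx h0 h (Inv.mask_of_not hn)) hh

theorem runB_sound (h1 : ∀ m, 64 ≤ m → w (m ^^^ 1) = !w m) (h0 : ∀ m < 64, w m = true)
    {CT ET IT : Tr} {E N : ℕ} (hEM : ∀ m, E.testBit m = true → 64 ≤ m ∧ m % 2 = 0)
    (hE : ∀ x, ESat w (get8 ET x)) (hI : ∀ x, ISat w (get8 IT x)) (s : SL) :
    ∀ (i A Z : ℕ), (∀ x < i, CSat w (get8 CT x)) → Inv w A →
      runB CT ET IT E N s i A Z = true →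
      (∀ x < i + s.len, CSat w (get8 CT x)) ∧ Inv w (Nat.shiftLeft Z 64) := by
  induction s with
  | nil =>
    intro i A Z hC hA h
    refine ⟨hC, ?_⟩
    have h2 : A >>> 64 = Z := Nat.eq_of_beq_eq_true h
    intro m hm
    rcases lt_or_ge m 64 with h3 | h3
    · exact h0 m h3
    · apply hA m
      have h4 : (Z <<< 64).testBit m = true := hm
      rw [Nat.testBit_shiftLeft, ← h2, Nat.testBit_shiftRight] at h4
      have h5 : 64 + (m - 64) = m := by omega
      rw [h5, Bool.and_eq_true] at h4
      exact h4.2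
  | cons h t ih =>
    intro i A Z hC hA hh
    have e : runB CT ET IT E N (SL.cons h t) i A Z = Bool.rec (motive := fun _ => Bool) false
      (Bool.rec (motive := fun _ => Bool) (runB CT ET IT E N t (Nat.succ i) A Z)
        (Bool.rec (motive := fun _ => Bool) false
            (runB CT ET IT E N t (Nat.succ i) (Nat.lor A (Nat.shiftLeft 1 (Nat.xor 1
              (fld (get8 CT i >>> 12) 0)))) Z)
            (Nat.beq (mask CT i) (Nat.shiftLeft 1 (fld (get8 CT i >>> 12) 0))))
        (Nat.beq 1 (Nat.land h 1)))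
      (step CT ET IT E N i A (Nat.shiftRight h 1)) := rfl
    rw [e] at hh
    rcases Bool.eq_false_or_eq_true (step CT ET IT E N i A (Nat.shiftRight h 1)) with hs | hs
    · rw [hs] at hh
      have hi := step_sound h1 h0 hEM hC hE hI _ hA hs
      have hC' : ∀ x < Nat.succ i, CSat w (get8 CT x) := by
        intro x hx
        rcases Nat.lt_succ_iff_lt_or_eq.1 hx with h | rfl
        · exact hC x h
        · exact hi
      have hlen : i + (SL.cons h t).len = Nat.succ i + t.len := by
        show i + (t.len + 1) = _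
        omega
      rw [hlen]
      rcases Bool.eq_false_or_eq_true (Nat.beq 1 (Nat.land h 1)) with hb | hb
      · rw [hb] at hh
        rcases Bool.eq_false_or_eq_true (Nat.beq (mask CT i)
          (Nat.shiftLeft 1 (fld (get8 CT i >>> 12) 0))) with hc | hc
        · rw [hc] at hh
          refine ih _ _ Z hC' ?_ hh
          apply hA.lor
          apply Inv.one
          obtain ⟨j, hj, hw⟩ := hi
          have hmask : mask CT i = Nat.shiftLeft 1 (fld (get8 CT i >>> 12) 0) :=
            Nat.eq_of_beq_eq_true hc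
          have hf := (mask_testBit CT i _).2 ⟨j, hj, rfl⟩
          rw [hmask] at hf
          have hf2 := (testBit_one_shiftLeft _ _).1 hf
          rw [hf2] at hw
          rw [xor_one_comm, h1 _ ?_, hw]
          · rfl
          · by_contra h
            rw [h0 _ (by omega)] at hw
            exact absurd hw (by simp)
        · rw [hc] at hh
          exact absurd hh (by simp)
      · rw [hb] at hh
        exact ih _ _ Z hC' hA hh
    · rw [hs] at hh
      exact absurd hh (by simp)

/-! ### Use -/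

/-- the clauses with index less than `i` hold, and the literals in `Z` -/
def Ok (w : ℕ → Bool) (CT : Tr) (i Z : ℕ) : Prop :=
  (∀ x < i, CSat w (get8 CT x)) ∧ Inv w (Nat.shiftLeft Z 64)

/-- a valuation of the literals in which the equations and the implications hold -/
structure Val (w : ℕ → Bool) (ET IT : Tr) : Prop where
  low : ∀ m < 64, w m = true
  neg : ∀ m, 64 ≤ m → w (m ^^^ 1) = !w m
  equ : ∀ x, ESat w (get8 ET x)
  imp : ∀ x, ISat w (get8 IT x)

/-- the mask of the even bits from 64 -/
def evenMask (n : ℕ) : ℕ := Nat.shiftLeft (mk 1 n) 64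

theorem evenMask_spec (n m : ℕ) (h : (evenMask n).testBit m = true) : 64 ≤ m ∧ m % 2 = 0 := by
  have h1 : ((mk 1 n) <<< 64).testBit m = true := h
  rw [Nat.testBit_shiftLeft, Bool.and_eq_true] at h1
  have h2 : 64 ≤ m := of_decide_eq_true h1.1
  have h3 := mk_one_even n _ h1.2
  exact ⟨h2, by omega⟩

theorem Ok.zero (w : ℕ → Bool) (CT : Tr) : Ok w CT 0 0 := by
  refine ⟨fun x hx => absurd hx (Nat.not_lt_zero x), ?_⟩
  have : Nat.shiftLeft 0 64 = 0 := rfl
  rw [this]
  exact Inv.zero

/-- a block of steps -/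
theorem Ok.block {w : ℕ → Bool} {CT ET IT : Tr} (hw : Val w ET IT) {n N : ℕ} {s : SL}
    {i i' Z Z' : ℕ} (h : runB CT ET IT (evenMask n) N s i (Nat.shiftLeft Z 64) Z' = true)
    (hl : i + s.len = i') (hok : Ok w CT i Z) : Ok w CT i' Z' := by
  rw [← hl]
  exact runB_sound hw.neg hw.low (evenMask_spec n) hw.equ hw.imp s i _ Z' hok.1 hok.2 h

/-- the empty clause does not hold -/
theorem Ok.false {w : ℕ → Bool} {CT : Tr} {i x Z : ℕ} (hok : Ok w CT i Z) (hx : x < i)
    (h0 : Nat.land (get8 CT x) 4095 = 0) : False := by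
  obtain ⟨j, hj, _⟩ := hok.1 x hx
  have : get8 CT x &&& 4095 = 0 := h0
  rw [this] at hj
  omega

/-! ### Entries of a table -/

/-- entry `j` of a leaf -/
def ent (n j : ℕ) : ℕ :=
  Nat.shiftRight n (Nat.land (Nat.shiftRight n (Nat.mul 20 (Nat.land j 7))) 1048575)

/-- a property of all the leaves -/
def Tr.All (P : ℕ → Prop) : Tr → Prop
  | .leaf n => P n
  | .node l r => l.All P ∧ r.All P

theorem Tr.All.get {P : ℕ → Prop} {t : Tr} (h : t.All P) (i : ℕ) : P (t.get i) := by
  induction t generalizing i with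
  | leaf n => exact h
  | node l r ihl ihr =>
    have e : (Tr.node l r).get i = Bool.rec (motive := fun _ => ℕ) (l.get (Nat.shiftRight i 1))
      (r.get (Nat.shiftRight i 1)) (Nat.beq 1 (Nat.land i 1)) := rfl
    rw [e]
    rcases Bool.eq_false_or_eq_true (Nat.beq 1 (Nat.land i 1)) with hb | hb
    · rw [hb]
      exact ihr h.2 _
    · rw [hb]
      exact ihl h.1 _

/-- a property of all the entries of a table follows from the same property of the entries of
all the leaves -/
theorem get8_of_all {Q : ℕ → Prop} {t : Tr} (h : t.All (fun n => ∀ j < 8, Q (ent n j))) (i : ℕ) :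
    Q (get8 t i) := by
  have h1 := Tr.All.get h (Nat.shiftRight i 3)
  have h2 : i &&& 7 < 8 := Nat.lt_succ_of_le Nat.and_le_right
  have h3 := h1 (i &&& 7) h2
  have h4 : ent (t.get (Nat.shiftRight i 3)) (i &&& 7) = get8 t i := by
    unfold ent
    have h5 : Nat.land (i &&& 7) 7 = Nat.land i 7 := by
      have : (i &&& 7) &&& 7 = i &&& 7 := by
        rw [Nat.and_assoc]
        rfl
      exact this
    rw [h5]
    rfl
  rw [← h4]
  exact h3

end Pool.Agent.H23.KD
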