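import Mathlib
import Pool.Agent.H23.KD.Chk

set_option autoImplicit false

/-!
A faster form of the checker.
-/

namespace Pool.Agent.H23.KD

/-- the mask of the first `4 k` fields -/
def dense2 (k : ℕ) : ℕ → ℕ → ℕ :=
  Nat.rec (motive := fun _ => ℕ → ℕ → ℕ) (fun _ m => m)
    (fun _ ih n m => ih (Nat.shiftRight n 68)
      (Nat.lor (Nat.lor m (Nat.lor (Nat.shiftLeft 1 (Nat.land n 131071))
        (Nat.shiftLeft 1 (Nat.land (Nat.shiftRight n 17) 131071))))
        (Nat.lor (Nat.shiftLeft 1 (Nat.land (Nat.shiftRight n 34) 131071))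
          (Nat.shiftLeft 1 (Nat.land (Nat.shiftRight n 51) 131071))))) k

/-- the mask of an entry -/
noncomputable def mask2 (t : Tr) (i : ℕ) : ℕ :=
  force (get8 t i) fun c => dense2 (Nat.land c 4095) (Nat.shiftRight c 12) 0

/-- a plane -/
def plane2 (j : ℕ) (k : ℕ) : ℕ → ℕ → ℕ :=
  Nat.rec (motive := fun _ => ℕ → ℕ → ℕ) (fun _ m => m)
    (fun _ ih n m => ih (Nat.shiftRight n 100)
      (Nat.lor (Nat.lor m (Nat.lor
        (Nat.shiftLeft (Nat.land 1 (Nat.shiftRight n j)) (Nat.xor 0 (Nat.land n 131071)))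
        (Nat.shiftLeft (Nat.land 1 (Nat.shiftRight (Nat.shiftRight n 25) j))
          (Nat.xor 0 (Nat.land (Nat.shiftRight n 25) 131071)))))
        (Nat.lor
          (Nat.shiftLeft (Nat.land 1 (Nat.shiftRight (Nat.shiftRight n 50) j))
            (Nat.xor 0 (Nat.land (Nat.shiftRight n 50) 131071)))
          (Nat.shiftLeft (Nat.land 1 (Nat.shiftRight (Nat.shiftRight n 75) j))
            (Nat.xor 0 (Nat.land (Nat.shiftRight n 75) 131071)))))) k

noncomputable def planeOf2 (t : Tr) (i j : ℕ) : ℕ :=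
  force (get8 t i) fun c =>
    plane2 (Nat.add 17 j) (Nat.land c 4095) (Nat.shiftRight c 56) 0

/-- the plane for the negated literals -/
noncomputable def planeS2 (t : Tr) (N i j : ℕ) : ℕ :=
  force (planeOf2 t i j) fun W => Nat.lor (Nat.shiftLeft (Nat.land W (mk 1 (Nat.mul 4 N))) 1)
    (Nat.land (Nat.shiftRight W 1) (mk 1 (Nat.mul 4 N)))

/-- a lower bound (the value, if it is less than 255) for the number of bits of `z` -/
def pc2 (N z : ℕ) : ℕ :=
  Nat.mod (st 4 (mk 4 N) (st 2 (mk 2 (Nat.mul 2 N)) (st 1 (mk 1 (Nat.mul 4 N)) z))) 255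

/-- the sum over the first `k` planes -/
noncomputable def psum0 (ET : Tr) (N x A : ℕ) (k : ℕ) : ℕ :=
  Nat.rec (motive := fun _ => ℕ) 0
    (fun j s => Nat.add s (Nat.shiftLeft (pc2 N (Nat.land A (planeOf2 ET x j))) j)) k

/-- the sum over the first `k` planes -/
noncomputable def psum1 (ET : Tr) (N x A : ℕ) (k : ℕ) : ℕ :=
  Nat.rec (motive := fun _ => ℕ) 0
    (fun j s => Nat.add s (Nat.shiftLeft (pc2 N (Nat.land A (planeS2 ET N x j))) j)) k

/-- a clause is used: `x` (19 bits from bit 2), `y` (17 bits from bit 21) -/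
noncomputable def bC (CT : Tr) (i h A x : ℕ) (ih : ℕ → ℕ → Bool) : Bool :=
  Nat.rec (motive := fun _ => Bool) false (fun B _ => ih (Nat.shiftRight h 38) B)
    (Nat.succ (Nat.xor (Nat.lor A (Nat.shiftLeft (Nat.mul (Nat.sub 1 (Nat.xor (Nat.land
      (Nat.lor A (Nat.shiftLeft 1 (Nat.xor 1 (Nat.land (Nat.shiftRight h 21) 131071))))
        (mask2 CT x)) (mask2 CT x)))
      (Nat.sub 1 (Nat.sub (Nat.succ x) i))) (Nat.land (Nat.shiftRight h 21) 131071)))
      (Nat.land h 18446744073709551615)))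

/-- the consequences of the first field of entry `x` -/
noncomputable def cons (IT : Tr) (A x : ℕ) : ℕ :=
  Nat.mul (Nat.land 1 (Nat.shiftRight A (Nat.land (Nat.shiftRight (get8 IT x) 12)
    131071))) (mask2 IT x)

/-- four implications are used -/
noncomputable def bF (IT : Tr) (h A x : ℕ) (ih : ℕ → ℕ → Bool) : Bool :=
  Nat.rec (motive := fun _ => Bool) false (fun x2 _ =>
  Nat.rec (motive := fun _ => Bool) false (fun x3 _ =>
  Nat.rec (motive := fun _ => Bool) false (fun x4 _ =>
  Nat.rec (motive := fun _ => Bool) false (fun B _ => ih (Nat.shiftRight h 72) B)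
    (Nat.succ (Nat.xor (Nat.lor (Nat.lor A (Nat.lor (cons IT A x) (cons IT A x2)))
      (Nat.lor (cons IT A x3) (cons IT A x4))) (Nat.land h 18446744073709551615))))
    (Nat.succ (Nat.land (Nat.shiftRight h 55) 131071)))
    (Nat.succ (Nat.land (Nat.shiftRight h 38) 131071)))
    (Nat.succ (Nat.land (Nat.shiftRight h 21) 131071))

/-- an implication is used -/
noncomputable def bI (IT : Tr) (h A x : ℕ) (ih : ℕ → ℕ → Bool) : Bool :=
  Nat.rec (motive := fun _ => Bool) false (fun B _ => ih (Nat.shiftRight h 21) B)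
    (Nat.succ (Nat.xor (Nat.lor A (cons IT A x)) (Nat.land h 18446744073709551615)))

/-- an equation is used -/
noncomputable def bE (ET : Tr) (N h A x : ℕ) (ih : ℕ → ℕ → Bool) : Bool :=
  Nat.rec (motive := fun _ => Bool)
    (Nat.rec (motive := fun _ => Bool) false (fun B _ => ih (Nat.shiftRight h 39) B)
      (Nat.succ (Nat.xor (Nat.lor A (Nat.shiftLeft (Nat.sub 1 (Nat.sub
        (Nat.succ (Nat.land (Nat.shiftRight (get8 ET x) 16) 1048575))
        (psum0 ET N x (Nat.lor A (Nat.shiftLeft 1 (Nat.xor 1 (Nat.land (Nat.shiftRight h 21)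
          131071)))) (planes ET x)))) (Nat.land (Nat.shiftRight h 21) 131071)))
        (Nat.land h 18446744073709551615))))
    (fun _ _ => Nat.rec (motive := fun _ => Bool) false (fun B _ => ih (Nat.shiftRight h 39) B)
      (Nat.succ (Nat.xor (Nat.lor A (Nat.shiftLeft (Nat.sub 1 (Nat.sub
        (Nat.succ (Nat.land (Nat.shiftRight (get8 ET x) 36) 1048575))
        (psum1 ET N x (Nat.lor A (Nat.shiftLeft 1 (Nat.xor 1 (Nat.land (Nat.shiftRight h 21)
          131071)))) (planes ET x)))) (Nat.land (Nat.shiftRight h 21) 131071)))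
        (Nat.land h 18446744073709551615))))
    (Nat.land 1 (Nat.shiftRight h 38))

/-- one hint -/
noncomputable def rcd (CT ET IT : Tr) (N i h A x : ℕ) (ih : ℕ → ℕ → Bool) : Bool :=
  Nat.rec (motive := fun _ => Bool) (bC CT i h A x ih)
    (fun k1 _ => Nat.rec (motive := fun _ => Bool) (bF IT h A x ih)
      (fun k2 _ => Nat.rec (motive := fun _ => Bool) (bI IT h A x ih)
        (fun _ _ => bE ET N h A x ih) k2) k1) (Nat.land h 3)

/-- runs the first `c` hints of `h` -/
noncomputable def hints2 (CT ET IT : Tr) (E N i : ℕ) (c : ℕ) : ℕ → ℕ → Bool :=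
  Nat.rec (motive := fun _ => ℕ → ℕ → Bool) (fun _ A => confl E A)
    (fun _ ih h A => Nat.rec (motive := fun _ => Bool) false
      (fun x _ => rcd CT ET IT N i h A x ih)
      (Nat.succ (Nat.land (Nat.shiftRight h 2) 524287))) c

/-- one step: clause `i` follows -/
noncomputable def step2 (CT ET IT : Tr) (E N i A h : ℕ) : Bool :=
  force (Nat.xor (Nat.lor A (mask2 CT i)) (Nat.land h 18446744073709551615)) fun B =>
  hints2 CT ET IT E N i (Nat.land h 65535) (Nat.shiftRight h 16) B

/-- a block of steps; the lowest bit of an element is 1 if the clause has just one literal -/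
noncomputable def run2 (CT ET IT : Tr) (E N : ℕ) (s : SL) : ℕ → ℕ → ℕ → Bool :=
  SL.rec (motive := fun _ => ℕ → ℕ → ℕ → Bool)
    (fun _ A Z => Nat.beq (Nat.shiftRight A 64) Z)
    (fun h _ ih i A Z => Bool.rec false
      (Bool.rec (ih (Nat.succ i) A Z)
        (force (Nat.land (Nat.shiftRight (get8 CT i) 12) 131071) fun f =>
          Bool.rec false
            (force (Nat.lor A (Nat.shiftLeft 1 (Nat.xor 1 f))) fun B => ih (Nat.succ i) B Z)
            (Nat.beq (mask2 CT i) (Nat.shiftLeft 1 f)))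
        (Nat.beq 1 (Nat.land h 1)))
      (step2 CT ET IT E N i A (Nat.shiftRight h 1))) s

end Pool.Agent.H23.KD
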