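import Mathlib
import Pool.Agent.H23.KD.Snd
import Pool.Agent.H23.KD.Chk2

set_option autoImplicit false

/-!
The faster form of the checker is sound.
-/

namespace Pool.Agent.H23.KD

open Finset

variable {w : ℕ → Bool}

theorem dense2_eq (k n m : ℕ) : dense2 k n m = dense k n m := rfl

theorem mask2_eq (t : Tr) (i : ℕ) : mask2 t i = mask t i := rfl

theorem planeOf2_eq (t : Tr) (i j : ℕ) : planeOf2 t i j = planeOf t 0 i j := rfl

theorem pc2_le (N z : ℕ) : pc2 N z ≤ pop (8 * N) z := by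
  unfold pc2
  set w1 := st 1 (mk 1 (Nat.mul 4 N)) z
  set w2 := st 2 (mk 2 (Nat.mul 2 N)) w1
  set w3 := st 4 (mk 4 N) w2
  have h4 : w3 < (2 ^ 8) ^ N := st_lt 4 N w2 (by norm_num)
  have h5 : w3 ≡ ds 8 N w3 [MOD 2 ^ 8 - 1] := modEq_ds 8 N w3 h4
  have h6 : Nat.mod w3 255 = ds 8 N w3 % 255 := h5
  rw [h6]
  refine (Nat.mod_le _ _).trans (le_of_eq ?_)
  have e3 : ds 8 N w3 = ds 4 (2 * N) w2 := ds_st 4 N w2 (by norm_num)
  have e2 : ds 4 (2 * N) w2 = ds 2 (2 * (2 * N)) w1 := ds_st 2 (2 * N) w1 (by norm_num)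
  have e1 : ds 2 (4 * N) w1 = ds 1 (2 * (4 * N)) z := ds_st 1 (4 * N) z (by norm_num)
  rw [e3, e2]
  have a2 : 2 * (2 * N) = 4 * N := by ring
  rw [a2, e1, ds_one]
  congr 1
  ring

theorem xor_one_even (m : ℕ) (h : m % 2 = 0) : m ^^^ 1 = m + 1 := by
  have h6 : m = 2 * (m / 2) := by omega
  have h7 : (2 * (m / 2)) ^^^ 1 = 2 * (m / 2) + 1 := by
    apply Nat.eq_of_testBit_eq
    intro j
    rw [Nat.testBit_xor]
    rcases j with _ | j
    · simp [Nat.testBit_zero]
    · rw [Nat.testBit_succ, Nat.testBit_succ, Nat.testBit_succ]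
      have e1 : 2 * (m / 2) / 2 = m / 2 := by omega
      have e2 : (2 * (m / 2) + 1) / 2 = m / 2 := by omega
      have e3 : 1 / 2 = 0 := rfl
      rw [e1, e2, e3, Nat.zero_testBit, Bool.xor_false]
  rw [← h6] at h7
  exact h7

theorem xor_one_odd (m : ℕ) (h : m % 2 = 0) : (m + 1) ^^^ 1 = m := by
  rw [← xor_one_even m h, Nat.xor_assoc, Nat.xor_self, Nat.xor_zero]

theorem planeS2_testBit (t : Tr) (N i j m : ℕ) (h : (planeS2 t N i j).testBit m = true) :
    (planeOf t 0 i j).testBit (m ^^^ 1) = true := by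
  set W := planeOf t 0 i j with hW
  have e : planeS2 t N i j = ((W &&& mk 1 (Nat.mul 4 N)) <<< 1) |||
    ((W >>> 1) &&& mk 1 (Nat.mul 4 N)) := rfl
  rw [e, Nat.testBit_or, Bool.or_eq_true] at h
  rcases h with h | h
  · rw [Nat.testBit_shiftLeft, Bool.and_eq_true, Nat.testBit_and, Bool.and_eq_true] at h
    have h1 : 1 ≤ m := of_decide_eq_true h.1
    have h2 := mk_one_even _ _ h.2.2
    obtain ⟨m', rfl⟩ : ∃ m', m = m' + 1 := ⟨m - 1, by omega⟩
    rw [Nat.add_sub_cancel] at h h2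
    rw [xor_one_odd m' h2]
    exact h.2.1
  · rw [Nat.testBit_and, Bool.and_eq_true, Nat.testBit_shiftRight] at h
    have h2 := mk_one_even _ _ h.2
    rw [xor_one_even m h2, add_comm]
    exact h.1

/-- the terms of an equation that are counted in a plane -/
theorem pop_gen_le (ET : Tr) (M d x A j P : ℕ) (hj : j < 8)
    (hP : ∀ m, P.testBit m = true → (planeOf ET 0 x j).testBit (d ^^^ m) = true) :
    pop M (Nat.land A P) ≤
      ∑ t ∈ range (4 * (get8 ET x &&& 4095)),
        ((tc (get8 ET x >>> 56) t).testBit j).toNat *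
          (A.testBit (d ^^^ tl (get8 ET x >>> 56) t)).toNat := by
  classical
  set n := get8 ET x >>> 56 with hn
  set T := 4 * (get8 ET x &&& 4095) with hT
  have e : planeOf ET 0 x j = plane 0 (17 + j) (get8 ET x &&& 4095) n 0 := rfl
  have hkey : ∀ i, (Nat.land A P).testBit i = true →
      ∃ t < T, (tc n t).testBit j = true ∧ A.testBit (d ^^^ tl n t) = true ∧
        i = d ^^^ tl n t := by
    intro i hi
    have h1 : (A &&& P).testBit i = true := hi
    rw [Nat.testBit_and, Bool.and_eq_true] at h1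
    have h0 := hP i h1.2
    rw [e] at h0
    rcases plane_testBit _ _ _ _ _ _ h0 with h2 | ⟨t, ht, h2, h3⟩
    · rw [Nat.zero_testBit] at h2
      exact absurd h2 (by simp)
    · have h4 : i = d ^^^ tl n t := by
        rw [Nat.zero_xor] at h3
        rw [← h3, ← Nat.xor_assoc, Nat.xor_self, Nat.zero_xor]
      exact ⟨t, ht, by rw [tc_testBit n t j hj]; exact h2, by rw [← h4]; exact h1.1, h4⟩
  have hsum : ∑ t ∈ range T, ((tc n t).testBit j).toNat * (A.testBit (d ^^^ tl n t)).toNat =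
      ((range T).filter (fun t => (tc n t).testBit j = true ∧
        A.testBit (d ^^^ tl n t) = true)).card := by
    rw [Finset.card_filter]
    refine Finset.sum_congr rfl fun t _ => ?_
    rcases Bool.eq_false_or_eq_true ((tc n t).testBit j) with h | h <;>
      rcases Bool.eq_false_or_eq_true (A.testBit (d ^^^ tl n t)) with h' | h' <;>
      simp [h, h']
  rw [hsum]
  unfold pop
  choose! f hf using hkey
  refine Finset.card_le_card_of_injOn f ?_ ?_
  · intro i hi
    have hi' := (Finset.mem_filter.1 hi).2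
    have := hf i hi'
    simp only [Finset.coe_filter, Finset.mem_range, Set.mem_ofPred_eq]
    exact ⟨this.1, this.2.1, this.2.2.1⟩
  · intro i hi i' hi' hii
    have h1 := hf i (Finset.mem_filter.1 hi).2
    have h2 := hf i' (Finset.mem_filter.1 hi').2
    rw [h1.2.2.2, h2.2.2.2, hii]

/-- sums over planes -/
theorem psum_gen_le (ET : Tr) (N d x A k : ℕ) (hk : k ≤ 7) (P : ℕ → ℕ)
    (hP : ∀ j m, (P j).testBit m = true → (planeOf ET 0 x j).testBit (d ^^^ m) = true) :
    ∑ j ∈ range k, pc2 N (Nat.land A (P j)) * 2 ^ j ≤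
      ∑ t ∈ range (4 * (get8 ET x &&& 4095)),
      tc (get8 ET x >>> 56) t * (A.testBit (d ^^^ tl (get8 ET x >>> 56) t)).toNat := by
  calc ∑ j ∈ range k, pc2 N (Nat.land A (P j)) * 2 ^ j
      ≤ ∑ j ∈ range k, (∑ t ∈ range (4 * (get8 ET x &&& 4095)),
        ((tc (get8 ET x >>> 56) t).testBit j).toNat *
          (A.testBit (d ^^^ tl (get8 ET x >>> 56) t)).toNat) * 2 ^ j := by
        refine Finset.sum_le_sum fun j hj => Nat.mul_le_mul_right _ ?_
        exact (pc2_le N _).trans (pop_gen_le ET _ d x A j _ (by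
          have := Finset.mem_range.1 hj
          omega) (hP j))
    _ = ∑ t ∈ range (4 * (get8 ET x &&& 4095)),
        (∑ j ∈ range k, 2 ^ j * ((tc (get8 ET x >>> 56) t).testBit j).toNat) *
          (A.testBit (d ^^^ tl (get8 ET x >>> 56) t)).toNat := by
        simp only [Finset.sum_mul]
        rw [Finset.sum_comm]
        refine Finset.sum_congr rfl fun t _ => Finset.sum_congr rfl fun j _ => ?_
        ring
    _ ≤ _ := Finset.sum_le_sum fun t _ => Nat.mul_le_mul_right _ (sum_bits_le _ _)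

theorem psum0_eq (ET : Tr) (N x A k : ℕ) :
    psum0 ET N x A k = ∑ j ∈ range k, pc2 N (Nat.land A (planeOf2 ET x j)) * 2 ^ j := by
  induction k with
  | zero => rfl
  | succ k ih =>
    rw [Finset.sum_range_succ, ← ih]
    have : psum0 ET N x A (k + 1) = psum0 ET N x A k +
        (pc2 N (Nat.land A (planeOf2 ET x k))) <<< k := rfl
    rw [this, Nat.shiftLeft_eq]

theorem psum1_eq (ET : Tr) (N x A k : ℕ) :
    psum1 ET N x A k = ∑ j ∈ range k, pc2 N (Nat.land A (planeS2 ET N x j)) * 2 ^ j := by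
  induction k with
  | zero => rfl
  | succ k ih =>
    rw [Finset.sum_range_succ, ← ih]
    have : psum1 ET N x A (k + 1) = psum1 ET N x A k +
        (pc2 N (Nat.land A (planeS2 ET N x k))) <<< k := rfl
    rw [this, Nat.shiftLeft_eq]

theorem psum0_le {ET : Tr} {A : ℕ} (N x k : ℕ) (hk : k ≤ 7) (hA : Inv w A) :
    psum0 ET N x A k ≤ ∑ t ∈ range (4 * (get8 ET x &&& 4095)),
      tc (get8 ET x >>> 56) t * (w (tl (get8 ET x >>> 56) t)).toNat := by
  rw [psum0_eq]
  refine (psum_gen_le ET N 0 x A k hk (fun j => planeOf2 ET x j) (fun j m h => by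
    rw [Nat.zero_xor]; exact h)).trans (Finset.sum_le_sum fun t _ =>
    Nat.mul_le_mul_left _ ?_)
  rw [Nat.zero_xor]
  rcases Bool.eq_false_or_eq_true (A.testBit (tl (get8 ET x >>> 56) t)) with h | h
  · rw [h, hA _ h]
  · rw [h]
    exact Nat.zero_le _

theorem psum1_le {ET : Tr} {A : ℕ} (N x k : ℕ) (hk : k ≤ 7) (hA : Inv w A) :
    psum1 ET N x A k ≤ ∑ t ∈ range (4 * (get8 ET x &&& 4095)),
      tc (get8 ET x >>> 56) t * (w (tl (get8 ET x >>> 56) t ^^^ 1)).toNat := by
  rw [psum1_eq]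
  refine (psum_gen_le ET N 1 x A k hk (fun j => planeS2 ET N x j) (fun j m h => by
    rw [Nat.xor_comm]; exact planeS2_testBit ET N x j m h)).trans
    (Finset.sum_le_sum fun t _ => Nat.mul_le_mul_left _ ?_)
  rw [Nat.xor_comm]
  rcases Bool.eq_false_or_eq_true (A.testBit (tl (get8 ET x >>> 56) t ^^^ 1)) with h | h
  · rw [h, hA _ h]
  · rw [h]
    exact Nat.zero_le _

theorem planes_le (ET : Tr) (x : ℕ) : planes ET x ≤ 7 := by
  have : planes ET x = (get8 ET x >>> 12) &&& 7 := rfl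
  rw [this]
  exact Nat.and_le_right

theorem Inv.equa0 (h1 : ∀ m, 64 ≤ m → w (m ^^^ 1) = !w m) (h0 : ∀ m < 64, w m = true)
    {ET : Tr} {A : ℕ} (N x y : ℕ) (hE : ∀ x, ESat w (get8 ET x)) (hA : Inv w A) :
    Inv w (Nat.shiftLeft (Nat.sub 1 (Nat.sub
        (Nat.succ (Nat.land (Nat.shiftRight (get8 ET x) 16) 1048575))
        (psum0 ET N x (Nat.lor A (Nat.shiftLeft 1 (Nat.xor 1 y))) (planes ET x)))) y) := by
  apply shiftLeft_inv
  set B := Nat.lor A (Nat.shiftLeft 1 (Nat.xor 1 y)) with hB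
  have e2 : ∀ a b : ℕ, Nat.sub a b = a - b := fun _ _ => rfl
  rw [e2, e2]
  rcases Nat.eq_zero_or_pos (Nat.succ (Nat.land (Nat.shiftRight (get8 ET x) 16) 1048575) -
    psum0 ET N x B (planes ET x)) with hx | hx
  · right
    rw [hx]
    refine ⟨rfl, ?_⟩
    by_contra hw
    have hw' : w y = false := by simpa using hw
    have hBI := hA.assume h1 h0 hw'
    have h3 := psum0_le (ET := ET) N x (planes ET x) (planes_le ET x) hBI
    rw [(hE x).1] at h3
    have h5 : Nat.land (Nat.shiftRight (get8 ET x) 16) 1048575 =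
      (get8 ET x >>> 16) &&& 1048575 := rfl
    rw [← h5] at h3
    have h6 := Nat.sub_eq_zero_iff_le.1 hx
    have h7 : Nat.succ (Nat.land (Nat.shiftRight (get8 ET x) 16) 1048575) ≤
      Nat.land (Nat.shiftRight (get8 ET x) 16) 1048575 := h6.trans h3
    exact absurd h7 (Nat.not_succ_le_self _)
  · left
    omega

theorem Inv.equa1 (h1 : ∀ m, 64 ≤ m → w (m ^^^ 1) = !w m) (h0 : ∀ m < 64, w m = true)
    {ET : Tr} {A : ℕ} (N x y : ℕ) (hE : ∀ x, ESat w (get8 ET x)) (hA : Inv w A) :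
    Inv w (Nat.shiftLeft (Nat.sub 1 (Nat.sub
        (Nat.succ (Nat.land (Nat.shiftRight (get8 ET x) 36) 1048575))
        (psum1 ET N x (Nat.lor A (Nat.shiftLeft 1 (Nat.xor 1 y))) (planes ET x)))) y) := by
  apply shiftLeft_inv
  set B := Nat.lor A (Nat.shiftLeft 1 (Nat.xor 1 y)) with hB
  have e2 : ∀ a b : ℕ, Nat.sub a b = a - b := fun _ _ => rfl
  rw [e2, e2]
  rcases Nat.eq_zero_or_pos (Nat.succ (Nat.land (Nat.shiftRight (get8 ET x) 36) 1048575) -
    psum1 ET N x B (planes ET x)) with hx | hx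
  · right
    rw [hx]
    refine ⟨rfl, ?_⟩
    by_contra hw
    have hw' : w y = false := by simpa using hw
    have hBI := hA.assume h1 h0 hw'
    have h3 := psum1_le (ET := ET) N x (planes ET x) (planes_le ET x) hBI
    rw [(hE x).2] at h3
    have h5 : Nat.land (Nat.shiftRight (get8 ET x) 36) 1048575 =
      (get8 ET x >>> 36) &&& 1048575 := rfl
    rw [← h5] at h3
    have h6 := Nat.sub_eq_zero_iff_le.1 hx
    have h7 : Nat.succ (Nat.land (Nat.shiftRight (get8 ET x) 36) 1048575) ≤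
      Nat.land (Nat.shiftRight (get8 ET x) 36) 1048575 := h6.trans h3
    exact absurd h7 (Nat.not_succ_le_self _)
  · left
    omega

/-! ### Hints and steps -/

theorem bC_sound (h1 : ∀ m, 64 ≤ m → w (m ^^^ 1) = !w m) (h0 : ∀ m < 64, w m = true)
    {CT : Tr} {i A : ℕ} (hC : ∀ x < i, CSat w (get8 CT x)) (h x : ℕ)
    (k : ℕ → ℕ → Bool) (hk : ∀ h' B, Inv w B → k h' B = true → False) (hA : Inv w A)
    (hh : bC CT i h A x k = true) : False :=
  hk (Nat.shiftRight h 38) (nx A (clau CT i A x (Nat.land (Nat.shiftRight h 21) 131071)) h)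
    (hA.nx h0 h (hA.clau h1 h0 x _ hC)) hh

theorem bI_sound (h0 : ∀ m < 64, w m = true)
    {IT : Tr} {A : ℕ} (hI : ∀ x, ISat w (get8 IT x)) (h x : ℕ)
    (k : ℕ → ℕ → Bool) (hk : ∀ h' B, Inv w B → k h' B = true → False) (hA : Inv w A)
    (hh : bI IT h A x k = true) : False :=
  hk (Nat.shiftRight h 21) (nx A (impl IT A x) h) (hA.nx h0 h (hA.impl x hI)) hh

theorem bF_sound (h0 : ∀ m < 64, w m = true)
    {IT : Tr} {A : ℕ} (hI : ∀ x, ISat w (get8 IT x)) (h x : ℕ)
    (k : ℕ → ℕ → Bool) (hk : ∀ h' B, Inv w B → k h' B = true → False) (hA : Inv w A)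
    (hh : bF IT h A x k = true) : False := by
  have hy : ∀ y, Inv w (impl IT A y) := fun y => hA.impl y hI
  refine hk (Nat.shiftRight h 72) (nx (Nat.lor A (Nat.lor (impl IT A x)
    (impl IT A (Nat.land (Nat.shiftRight h 21) 131071))))
    (Nat.lor (impl IT A (Nat.land (Nat.shiftRight h 38) 131071))
      (impl IT A (Nat.land (Nat.shiftRight h 55) 131071))) h) ?_ hh
  exact (hA.lor ((hy _).lor (hy _))).nx h0 h ((hy _).lor (hy _))

theorem bE_sound (h1 : ∀ m, 64 ≤ m → w (m ^^^ 1) = !w m) (h0 : ∀ m < 64, w m = true)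
    {ET : Tr} {N A : ℕ} (hE : ∀ x, ESat w (get8 ET x)) (h x : ℕ)
    (k : ℕ → ℕ → Bool) (hk : ∀ h' B, Inv w B → k h' B = true → False) (hA : Inv w A)
    (hh : bE ET N h A x k = true) : False := by
  unfold bE at hh
  generalize Nat.land 1 (Nat.shiftRight h 38) = d at hh
  rcases d with _ | d
  · exact hk (Nat.shiftRight h 39) _ (hA.nx h0 h (Inv.equa0 h1 h0 N x _ hE hA)) hh
  · exact hk (Nat.shiftRight h 39) _ (hA.nx h0 h (Inv.equa1 h1 h0 N x _ hE hA)) hh

theorem rcd_sound (h1 : ∀ m, 64 ≤ m → w (m ^^^ 1) = !w m) (h0 : ∀ m < 64, w m = true)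
    {CT ET IT : Tr} {N i A : ℕ} (hC : ∀ x < i, CSat w (get8 CT x))
    (hE : ∀ x, ESat w (get8 ET x)) (hI : ∀ x, ISat w (get8 IT x)) (h x : ℕ)
    (k : ℕ → ℕ → Bool) (hk : ∀ h' B, Inv w B → k h' B = true → False) (hA : Inv w A)
    (hh : rcd CT ET IT N i h A x k = true) : False := by
  unfold rcd at hh
  generalize Nat.land h 3 = d at hh
  rcases d with _ | _ | _ | d
  · exact bC_sound h1 h0 hC h x k hk hA hh
  · exact bF_sound h0 hI h x k hk hA hh
  · exact bI_sound h0 hI h x k hk hA hh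
  · exact bE_sound h1 h0 hE h x k hk hA hh

theorem hints2_sound (h1 : ∀ m, 64 ≤ m → w (m ^^^ 1) = !w m) (h0 : ∀ m < 64, w m = true)
    {CT ET IT : Tr} {E N i : ℕ} (hEM : ∀ m, E.testBit m = true → 64 ≤ m ∧ m % 2 = 0)
    (hC : ∀ x < i, CSat w (get8 CT x))
    (hE : ∀ x, ESat w (get8 ET x)) (hI : ∀ x, ISat w (get8 IT x)) (c : ℕ) :
    ∀ (h A : ℕ), Inv w A → hints2 CT ET IT E N i c h A = true → False := by
  induction c with
  | zero => exact fun h A hA hh => confl_sound h1 hEM hA hh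
  | succ c ih =>
    intro h A hA hh
    exact rcd_sound h1 h0 hC hE hI h _ (hints2 CT ET IT E N i c) ih hA hh

theorem step2_sound (h1 : ∀ m, 64 ≤ m → w (m ^^^ 1) = !w m) (h0 : ∀ m < 64, w m = true)
    {CT ET IT : Tr} {E N i : ℕ} (hEM : ∀ m, E.testBit m = true → 64 ≤ m ∧ m % 2 = 0)
    (hC : ∀ x < i, CSat w (get8 CT x))
    (hE : ∀ x, ESat w (get8 ET x)) (hI : ∀ x, ISat w (get8 IT x)) {A : ℕ} (h : ℕ)
    (hA : Inv w A) (hh : step2 CT ET IT E N i A h = true) : CSat w (get8 CT i) := by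
  by_contra hn
  exact hints2_sound h1 h0 hEM hC hE hI _ _ _ (hA.nx h0 h (Inv.mask_of_not hn)) hh

theorem run2_sound (h1 : ∀ m, 64 ≤ m → w (m ^^^ 1) = !w m) (h0 : ∀ m < 64, w m = true)
    {CT ET IT : Tr} {E N : ℕ} (hEM : ∀ m, E.testBit m = true → 64 ≤ m ∧ m % 2 = 0)
    (hE : ∀ x, ESat w (get8 ET x)) (hI : ∀ x, ISat w (get8 IT x)) (s : SL) :
    ∀ (i A Z : ℕ), (∀ x < i, CSat w (get8 CT x)) → Inv w A →
      run2 CT ET IT E N s i A Z = true →
      (∀ x < i + s.len, CSat w (get8 CT x)) ∧ Inv w (Nat.shiftLeft Z 64) := by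
  induction s with
  | nil =>
    intro i A Z hC hA h
    refine ⟨hC, ?_⟩
    have h2 : A >>> 64 = Z := Nat.eq_of_beq_eq_true h
    intro m hm
    rcases lt_or_ge m 64 with h3 | h3
    · exact h0 m h3
    · apply hA m
      have h4 : (Z <<< 64).testBit m = true := hm
      rw [Nat.testBit_shiftLeft, ← h2, Nat.testBit_shiftRight] at h4
      have h5 : 64 + (m - 64) = m := by omega
      rw [h5, Bool.and_eq_true] at h4
      exact h4.2
  | cons h t ih =>
    intro i A Z hC hA hh
    have e : run2 CT ET IT E N (SL.cons h t) i A Z = Bool.rec (motive := fun _ => Bool) false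
      (Bool.rec (motive := fun _ => Bool) (run2 CT ET IT E N t (Nat.succ i) A Z)
        (Bool.rec (motive := fun _ => Bool) false
            (run2 CT ET IT E N t (Nat.succ i) (Nat.lor A (Nat.shiftLeft 1 (Nat.xor 1
              (fld (get8 CT i >>> 12) 0)))) Z)
            (Nat.beq (mask CT i) (Nat.shiftLeft 1 (fld (get8 CT i >>> 12) 0))))
        (Nat.beq 1 (Nat.land h 1)))
      (step2 CT ET IT E N i A (Nat.shiftRight h 1)) := rfl
    rw [e] at hh
    rcases Bool.eq_false_or_eq_true (step2 CT ET IT E N i A (Nat.shiftRight h 1)) with hs | hs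
    · rw [hs] at hh
      have hi := step2_sound h1 h0 hEM hC hE hI _ hA hs
      have hC' : ∀ x < Nat.succ i, CSat w (get8 CT x) := by
        intro x hx
        rcases Nat.lt_succ_iff_lt_or_eq.1 hx with h | rfl
        · exact hC x h
        · exact hi
      have hlen : i + (SL.cons h t).len = Nat.succ i + t.len := by
        show i + (t.len + 1) = _
        omega
      rw [hlen]
      rcases Bool.eq_false_or_eq_true (Nat.beq 1 (Nat.land h 1)) with hb | hb
      · rw [hb] at hh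
        rcases Bool.eq_false_or_eq_true (Nat.beq (mask CT i)
          (Nat.shiftLeft 1 (fld (get8 CT i >>> 12) 0))) with hc | hc
        · rw [hc] at hh
          refine ih _ _ Z hC' ?_ hh
          apply hA.lor
          apply Inv.one
          obtain ⟨j, hj, hw⟩ := hi
          have hmask : mask CT i = Nat.shiftLeft 1 (fld (get8 CT i >>> 12) 0) :=
            Nat.eq_of_beq_eq_true hc
          have hf := (mask_testBit CT i _).2 ⟨j, hj, rfl⟩
          rw [hmask] at hf
          have hf2 := (testBit_one_shiftLeft _ _).1 hf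
          rw [hf2] at hw
          rw [xor_one_comm, h1 _ ?_, hw]
          · rfl
          · by_contra h
            rw [h0 _ (by omega)] at hw
            exact absurd hw (by simp)
        · rw [hc] at hh
          exact absurd hh (by simp)
      · rw [hb] at hh
        exact ih _ _ Z hC' hA hh
    · rw [hs] at hh
      exact absurd hh (by simp)

/-- a block of steps -/
theorem Ok.block2 {w : ℕ → Bool} {CT ET IT : Tr} (hw : Val w ET IT) {n N : ℕ} {s : SL}
    {i i' Z Z' : ℕ} (h : run2 CT ET IT (evenMask n) N s i (Nat.shiftLeft Z 64) Z' = true)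
    (hl : i + s.len = i') (hok : Ok w CT i Z) : Ok w CT i' Z' := by
  rw [← hl]
  exact run2_sound hw.neg hw.low (evenMask_spec n) hw.equ hw.imp s i _ Z' hok.1 hok.2 h

end Pool.Agent.H23.KD
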